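import Pool.Agent.H815.CE.Main

/-!
# `ℓ²`-homology above half the action dimension, for nerves in which every vertex is dominated

Let `G` be a finite graph such that for every vertex `v` there is another vertex `v'` which is adjacent to all the
neighbours of `v` (`Dom G`), and let `W G` be the right-angled Coxeter group. For example, `G` is the octahedralization
`OL` of any finite graph `L` (every vertex is replaced by two non-adjacent vertices); its right-angled Coxeter group is
commensurable with the right-angled Artin group of `L` (Davis and Januszkiewicz). The vanishing of the `i`-th `L²`-Betti
number is invariant under coarse equivalences (Gromov; Sauer and Schrödl).

Suppose that a group `Γ` admits a coarse embedding of a subgroup `H` of finite index of `W G` (`CoarseEmb H Γ`; for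
example, `Γ` is commensurable with `W G` or quasi-isometric to `W G`), and acts properly, not necessarily cocompactly,
on a contractible space `M` such that `M × M` has a continuous injective map to the euclidean space of dimension `2 n`
(`Acts`). If `M` is a contractible manifold of dimension `n`, with or without boundary, we may replace it by its
interior, and then `M × M` is homeomorphic to the euclidean space (Stallings, Siebenmann).

Then the `ℓ²`-homology of the Davis complex of `W G` vanishes in all degrees `i > n / 2`, and the same is true for all
special subgroups of `W G`, that is, for the Davis complexes of the right-angled Coxeter groups of the full subgraphs
`G.induce A`; in these the vertices need not be dominated. (For `A` equal to the set of all vertices this is the first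
statement.)

Idea of the proof. (1) Let `A` be a set of vertices with a map `f` to its complement, such that `f a` is adjacent to the
neighbours of `a`, and to their images. Suppose that the flag complex of `A` has a cycle `z` of degree `i - 1` modulo
`2` which is not a boundary. Then there is a symmetric cycle of dimension `2 i - 1` in the deleted join of the flag
complex of `G` on which the power of the Stiefel-Whitney class of the involution is not zero (`TW.Full`). It is the sum
of `ψ K • (z_S ⊗ z_T)` over the cliques `K` of `A` and the subsets `S` of `K`, where `T` is the union of `K \ S` and of
the set of the common neighbours of `K`, where `z_S` is the copy of `z` in which the vertices of `S` are replaced by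
their images, and where `ψ` is a function on the cliques, obtained from a cocycle `φ` with `φ z ≠ 0`, with the sum over
the subsets of a clique `X` equal to `ψ X` (`TW.Psi`). The symmetry is a Möbius inversion (`TW.Sym`), and the evaluation
is computed for the universal doubling, where the vertices are doubled in the order `v, f v` (`TW.Uni`, `TW.UniEv`,
`TW.Push`).
(2) So for such `A` the vanishing of the obstruction implies the vanishing of the homology of `A`. The domination gives
a system of slopes of the Davis complex whose ascending links are such sets `A`; hence the `ℓ²`-homology vanishes by the
Morse criterion `AscendingLinks` of the starting library (`TW.Van`).
(3) The vanishing of the obstruction. Let `v'` dominate `v`. The alternating words in `v`, `v'` are a ray, and the rays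
of the elements of a clique commute. As disjoint cliques have divergent products of rays, the orbit maps of the images
of these products in `Γ`, extended over the simplices with the contractibility of `M`, give a map of the cone of the
flag complex to `M` which separates disjoint simplices near infinity. Its square, composed with the map of `M × M` to
the euclidean space, shows that the obstruction of the join of the flag complex with itself vanishes in the dimension `2
n`; and the obstruction is multiplicative for joins (`TW.Fold`, `CE.Ray`, `CE.Odd`, `CE.Coarse`, `TW.Prod`, `TW.Cox`).
-/

set_option autoImplicit false

open Pool.Agent.H815.TW Pool.Agent.H815.CE Pool.Agent.W907.SG

/-- Let `G` be a finite graph in which every vertex is dominated by another vertex, and let `n < 2 i`. If a group `Γ`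
with a coarse embedding `H → Γ` of a subgroup `H` of finite index of the right-angled Coxeter group of `G` acts
properly on a contractible space `M` with a continuous injective map from `M × M` to the euclidean space of dimension
`2 n`, then for every set `A` of vertices the Davis complex of the right-angled Coxeter group of `G.induce A` has no
nonzero `ℓ²` harmonic `i`-chain. -/
theorem Pool.Agent.Results.MP_ea75ba_gt.DominatedNerves.result (V : Type) [Fintype V]
    (G : SimpleGraph V) (hd : Dom G) (H : Subgroup (W G)) (hH : H.FiniteIndex) (Γ : Type) [Group Γ]
    (hΓ : CoarseEmb H Γ) (n i : ℕ) (ha : Acts n Γ) (hi : n < 2 * i) (A : Set V) [Fintype A] [LinearOrder A] :
    L2Van (G.induce A) i :=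
  Pool.Agent.H815.CE.vanishing_sub G hd H hH ⟨Γ, _, ha, hΓ⟩ hi A
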